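import Pool.Agent.H5.FL.Stm4
import Pool.Agent.H78.FL.CLK

/-!
# Part IT2 of crew FL: moments of the limits of simple stochastic integrals
-/

set_option autoImplicit false

open MeasureTheory ProbabilityTheory Filter Topology
open scoped NNReal ENNReal

universe u

namespace H16.FL

open H5.FL

section L2

variable {α : Type*} [MeasurableSpace α] {Q : Measure α}

theorem inner_toLp {f g : α → ℝ} (hf : MemLp f 2 Q) (hg : MemLp g 2 Q) :
    inner ℝ (hf.toLp f) (hg.toLp g) = ∫ x, f x * g x ∂Q := by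
  rw [MeasureTheory.L2.inner_def]
  refine integral_congr_ae ?_
  filter_upwards [hf.coeFn_toLp, hg.coeFn_toLp] with x h1 h2
  rw [h1, h2]
  simp [mul_comm]

theorem norm_toLp_sq {f : α → ℝ} (hf : MemLp f 2 Q) :
    ‖hf.toLp f‖ = Real.sqrt (∫ x, (f x) ^ 2 ∂Q) := by
  rw [@norm_eq_sqrt_real_inner, inner_toLp hf hf]
  simp only [pow_two]

theorem toLp_tendsto {f : α → ℝ} {fn : ℕ → α → ℝ} (hf : MemLp f 2 Q)
    (hfn : ∀ n, MemLp (fn n) 2 Q)
    (h1 : Tendsto (fun n => ∫ x, (fn n x - f x) ^ 2 ∂Q) atTop (𝓝 0)) :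
    Tendsto (fun n => (hfn n).toLp (fn n)) atTop (𝓝 (hf.toLp f)) := by
  rw [tendsto_iff_norm_sub_tendsto_zero]
  have h2 : ∀ n, ‖(hfn n).toLp (fn n) - hf.toLp f‖
      = Real.sqrt (∫ x, (fn n x - f x) ^ 2 ∂Q) := by
    intro n
    rw [← MemLp.toLp_sub, norm_toLp_sq]
    rfl
  simp only [h2]
  have h3 := (Real.continuous_sqrt.tendsto 0).comp h1
  simpa [Function.comp_def] using h3

theorem l2_tendsto {f g : α → ℝ} {fn gn : ℕ → α → ℝ}
    (hf : MemLp f 2 Q) (hg : MemLp g 2 Q) (hfn : ∀ n, MemLp (fn n) 2 Q)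
    (hgn : ∀ n, MemLp (gn n) 2 Q)
    (h1 : Tendsto (fun n => ∫ x, (fn n x - f x) ^ 2 ∂Q) atTop (𝓝 0))
    (h2 : Tendsto (fun n => ∫ x, (gn n x - g x) ^ 2 ∂Q) atTop (𝓝 0)) :
    Tendsto (fun n => ∫ x, fn n x * gn n x ∂Q) atTop (𝓝 (∫ x, f x * g x ∂Q)) := by
  have h3 := (toLp_tendsto hf hfn h1).inner (𝕜 := ℝ) (toLp_tendsto hg hgn h2)
  simp only [inner_toLp] at h3
  exact h3

/-- convergence of the squared distance passes to restrictions -/
theorem restrict_sq {f : α → ℝ} {fn : ℕ → α → ℝ} (hf : MemLp f 2 Q)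
    (hfn : ∀ n, MemLp (fn n) 2 Q) (A : Set α)
    (h1 : Tendsto (fun n => ∫ x, (fn n x - f x) ^ 2 ∂Q) atTop (𝓝 0)) :
    Tendsto (fun n => ∫ x in A, (fn n x - f x) ^ 2 ∂Q) atTop (𝓝 0) := by
  refine squeeze_zero (fun n => integral_nonneg (fun x => sq_nonneg _)) (fun n => ?_) h1
  refine setIntegral_le_integral ?_ (Eventually.of_forall (fun x => sq_nonneg _))
  exact ((hfn n).sub hf).integrable_sq

theorem setInt_tendsto {f g : α → ℝ} {fn gn : ℕ → α → ℝ}
    (hf : MemLp f 2 Q) (hg : MemLp g 2 Q) (hfn : ∀ n, MemLp (fn n) 2 Q)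
    (hgn : ∀ n, MemLp (gn n) 2 Q)
    (h1 : Tendsto (fun n => ∫ x, (fn n x - f x) ^ 2 ∂Q) atTop (𝓝 0))
    (h2 : Tendsto (fun n => ∫ x, (gn n x - g x) ^ 2 ∂Q) atTop (𝓝 0)) (A : Set α) :
    Tendsto (fun n => ∫ x in A, fn n x * gn n x ∂Q) atTop (𝓝 (∫ x in A, f x * g x ∂Q)) :=
  l2_tendsto (hf.restrict A) (hg.restrict A) (fun n => (hfn n).restrict A)
    (fun n => (hgn n).restrict A) (restrict_sq hf hfn A h1) (restrict_sq hg hgn A h2)

/-- Fatou for the fourth moment -/
theorem fourth {f : α → ℝ} {fn : ℕ → α → ℝ} (hf : MemLp f 2 Q)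
    (hfn : ∀ n, MemLp (fn n) 2 Q)
    (h1 : Tendsto (fun n => ∫ x, (fn n x - f x) ^ 2 ∂Q) atTop (𝓝 0))
    (hi : ∀ n, Integrable (fun x => (fn n x) ^ 4) Q) (C : ℝ)
    (hC : ∀ n, ∫ x, (fn n x) ^ 4 ∂Q ≤ C) :
    Integrable (fun x => (f x) ^ 4) Q ∧ ∫ x, (f x) ^ 4 ∂Q ≤ C := by
  have hC0 : 0 ≤ C := le_trans (integral_nonneg (fun x => by positivity)) (hC 0)
  have h2 := tendstoInMeasure_of_tendsto_Lp (toLp_tendsto hf hfn h1)
  obtain ⟨ns, hns, hae⟩ := h2.exists_seq_tendsto_ae
  have hae2 : ∀ᵐ x ∂Q, Tendsto (fun i => fn (ns i) x) atTop (𝓝 (f x)) := by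
    have h3 : ∀ᵐ x ∂Q, ∀ n, (hfn n).toLp (fn n) x = fn n x :=
      ae_all_iff.mpr (fun n => (hfn n).coeFn_toLp)
    filter_upwards [hae, h3, hf.coeFn_toLp] with x hx h4 h5
    simp only [h4] at hx
    rw [h5] at hx
    exact hx
  have hm : AEStronglyMeasurable (fun x => (f x) ^ 4) Q := hf.aestronglyMeasurable.pow 4
  have hlin : ∫⁻ x, ENNReal.ofReal ((f x) ^ 4) ∂Q ≤ ENNReal.ofReal C := by
    have h5 : ∫⁻ x, ENNReal.ofReal ((f x) ^ 4) ∂Q
        = ∫⁻ x, liminf (fun i => ENNReal.ofReal ((fn (ns i) x) ^ 4)) atTop ∂Q := by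
      refine lintegral_congr_ae ?_
      filter_upwards [hae2] with x hx
      refine (Tendsto.liminf_eq ?_).symm
      exact (ENNReal.continuous_ofReal.tendsto _).comp (hx.pow 4)
    rw [h5]
    refine le_trans (lintegral_liminf_le' (fun i => ?_)) ?_
    · exact ((hi (ns i)).aestronglyMeasurable.aemeasurable).ennreal_ofReal
    · refine le_trans (liminf_le_liminf (v := fun _ => ENNReal.ofReal C) ?_) ?_
      · refine Eventually.of_forall (fun i => ?_)
        show ∫⁻ x, ENNReal.ofReal ((fn (ns i) x) ^ 4) ∂Q ≤ ENNReal.ofReal C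
        rw [← ofReal_integral_eq_lintegral_ofReal (hi (ns i))
          (Eventually.of_forall (fun x => by positivity))]
        exact ENNReal.ofReal_le_ofReal (hC _)
      · simp
  have hint : Integrable (fun x => (f x) ^ 4) Q := by
    refine ⟨hm, ?_⟩
    rw [hasFiniteIntegral_iff_ofReal (Eventually.of_forall (fun x => by positivity))]
    exact lt_of_le_of_lt hlin ENNReal.ofReal_lt_top
  refine ⟨hint, ?_⟩
  rw [← ofReal_integral_eq_lintegral_ofReal hint
    (Eventually.of_forall (fun x => by positivity))] at hlin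
  exact (ENNReal.ofReal_le_ofReal_iff hC0).mp hlin

end L2

section Main

variable {N : ℕ} {Ω : Type u} [mΩ : MeasurableSpace Ω] {F : Filtration ℝ≥0 mΩ}

theorem int_meas (S : Simple N F) (W : ℝ≥0 → Ω → ℝ) (hW : ∀ t, Measurable[F t] (W t))
    (t : ℝ≥0) (j : Fin N) : Measurable (fun ω => S.int W t ω j) := by
  unfold Simple.int
  refine Finset.measurable_sum _ (fun k _ => ?_)
  have h1 : Measurable (S.a k) := (S.a_meas k).mono (F.le _) le_rfl
  refine ((measurable_pi_apply j).comp h1).mul ?_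
  exact ((hW _).mono (F.le _) le_rfl).sub ((hW _).mono (F.le _) le_rfl)

theorem int_zero (S : Simple N F) (W : ℝ≥0 → Ω → ℝ) (ω : Ω) (j : Fin N) :
    S.int W 0 ω j = 0 := by
  unfold Simple.int
  refine Finset.sum_eq_zero (fun k _ => ?_)
  rw [min_eq_right zero_le, min_eq_right zero_le]
  simp

theorem memLp_two_of_fourth {P : Measure Ω} [IsFiniteMeasure P] {f : Ω → ℝ} (hf : Measurable f)
    (h4 : Integrable (fun ω => (f ω) ^ 4) P) : MemLp f 2 P := by
  rw [memLp_two_iff_integrable_sq hf.aestronglyMeasurable]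
  refine ((integrable_const (1 : ℝ)).add h4).mono' (hf.pow_const 2).aestronglyMeasurable ?_
  refine Eventually.of_forall (fun ω => ?_)
  rw [Real.norm_of_nonneg (sq_nonneg _)]
  simp only [Pi.add_apply]
  nlinarith [sq_nonneg (f ω ^ 2 - 1), sq_nonneg (f ω ^ 2)]

theorem val_meas (S : Simple N F) (j : Fin N) :
    Measurable (fun p : Ω × ℝ => S.val p.2.toNNReal p.1 j) := by
  unfold Simple.val
  refine Finset.measurable_sum _ (fun k _ => ?_)
  have h1 : Measurable (S.a k) := (S.a_meas k).mono (F.le _) le_rfl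
  have h2 : Measurable (fun p : Ω × ℝ => p.2.toNNReal) := measurable_real_toNNReal.comp measurable_snd
  refine Measurable.ite ?_ ?_ measurable_const
  · have e1 : MeasurableSet {p : Ω × ℝ | S.p k < p.2.toNNReal} := h2 measurableSet_Ioi
    have e2 : MeasurableSet {p : Ω × ℝ | p.2.toNNReal ≤ S.p (k + 1)} := h2 measurableSet_Iic
    exact e1.inter e2
  · exact (measurable_pi_apply j).comp (h1.comp measurable_fst)

theorem val_bdd (S : Simple N F) (j : Fin N) (s : ℝ≥0) (ω : Ω) : |S.val s ω j| ≤ S.m := by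
  unfold Simple.val
  refine le_trans (Finset.abs_sum_le_sum_abs _ _) ?_
  calc ∑ k ∈ Finset.range S.m, |if S.p k < s ∧ s ≤ S.p (k + 1) then S.a k ω j else 0|
      ≤ ∑ k ∈ Finset.range S.m, (1 : ℝ) := by
        refine Finset.sum_le_sum (fun k _ => ?_)
        split_ifs
        · exact S.a_le k ω j
        · simp
    _ = S.m := by simp

theorem ind_meas (J : ℝ≥0 → Ω → Fin N) (hJ : IsProgressive F J) (j : Fin N) :
    Measurable (fun p : Ω × ℝ => ind J p.2.toNNReal p.1 j) := by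
  unfold ind
  have h1 := H78.FL.J_joint F J hJ
  have h2 : Measurable (fun p : Ω × ℝ => J p.2.toNNReal p.1) :=
    h1.comp (measurable_snd.real_toNNReal.prodMk measurable_fst)
  exact Measurable.ite (h2 (measurableSet_singleton j)) measurable_const measurable_const

omit mΩ in
theorem ind_bdd (J : ℝ≥0 → Ω → Fin N) (j : Fin N) (s : ℝ≥0) (ω : Ω) : |ind J s ω j| ≤ 1 := by
  unfold ind
  split_ifs <;> simp

/-- bounded measurable functions on a finite rectangle -/
theorem bd_intOn (P : Measure Ω) [IsProbabilityMeasure P] {g : Ω × ℝ → ℝ} (hg : Measurable g)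
    (K : ℝ) (hK : ∀ p, |g p| ≤ K) (A : Set Ω) (s t : ℝ) :
    IntegrableOn g (A ×ˢ Set.Ioc s t) (P.prod volume) := by
  refine Measure.integrableOn_of_bounded (M := K) ?_ hg.aestronglyMeasurable
    (Eventually.of_forall (fun p => hK p))
  rw [Measure.prod_prod, Real.volume_Ioc]
  exact ENNReal.mul_ne_top (measure_ne_top _ _) ENNReal.ofReal_ne_top

theorem bd_memLp (P : Measure Ω) [IsProbabilityMeasure P] {g : Ω × ℝ → ℝ} (hg : Measurable g)
    (K : ℝ) (hK : ∀ p, |g p| ≤ K) (A : Set Ω) (s t : ℝ) :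
    MemLp g 2 ((P.prod volume).restrict (A ×ˢ Set.Ioc s t)) := by
  have : IsFiniteMeasure ((P.prod volume).restrict (A ×ˢ Set.Ioc s t)) := by
    refine ⟨?_⟩
    rw [Measure.restrict_apply_univ, Measure.prod_prod, Real.volume_Ioc]
    exact (ENNReal.mul_ne_top (measure_ne_top _ _) ENNReal.ofReal_ne_top).lt_top
  exact MemLp.of_bound hg.aestronglyMeasurable K (Eventually.of_forall (fun p => hK p))

theorem rect_eq (P : Measure Ω) [IsProbabilityMeasure P] {g : Ω × ℝ → ℝ} (hg : Measurable g)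
    (K : ℝ) (hK : ∀ p, |g p| ≤ K) (A : Set Ω) (s t : ℝ) (hst : s ≤ t) :
    ∫ z in A ×ˢ Set.Ioc s t, g z ∂(P.prod volume) = ∫ ω in A, (∫ r in s..t, g (ω, r)) ∂P := by
  rw [setIntegral_prod _ (bd_intOn P hg K hK A s t)]
  simp only [intervalIntegral.integral_of_le hst]

theorem side_tendsto (P : Measure Ω) [IsProbabilityMeasure P] (S : ℕ → Simple N F)
    (J : ℝ≥0 → Ω → Fin N) (hJ : IsProgressive F J) (s t : ℝ≥0) (hst : s ≤ t) (j : Fin N)
    (A : Set Ω)
    (h : Tendsto (fun n => ∫ ω, (∫ r in (0 : ℝ)..t,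
      ((S n).val r.toNNReal ω j - ind J r.toNNReal ω j) ^ 2) ∂P) atTop (𝓝 0)) :
    Tendsto (fun n => ∫ z in A ×ˢ Set.Ioc (s : ℝ) t,
      ((S n).val z.2.toNNReal z.1 j - ind J z.2.toNNReal z.1 j) ^ 2 ∂(P.prod volume)) atTop
      (𝓝 0) := by
  refine squeeze_zero (fun n => integral_nonneg (fun x => sq_nonneg _)) (fun n => ?_) h
  have hm : Measurable (fun z : Ω × ℝ =>
      ((S n).val z.2.toNNReal z.1 j - ind J z.2.toNNReal z.1 j) ^ 2) :=
    ((val_meas (S n) j).sub (ind_meas J hJ j)).pow_const 2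
  have hb : ∀ z : Ω × ℝ, |((S n).val z.2.toNNReal z.1 j - ind J z.2.toNNReal z.1 j) ^ 2|
      ≤ ((S n).m + 1 : ℝ) ^ 2 := by
    intro z
    rw [abs_pow]
    refine pow_le_pow_left₀ (abs_nonneg _) ?_ 2
    refine le_trans (abs_sub _ _) ?_
    exact add_le_add (val_bdd _ _ _ _) (ind_bdd _ _ _ _)
  have h1 : ∫ ω, (∫ r in (0 : ℝ)..t,
      ((S n).val r.toNNReal ω j - ind J r.toNNReal ω j) ^ 2) ∂P
      = ∫ z in (Set.univ : Set Ω) ×ˢ Set.Ioc (0 : ℝ) t,
      ((S n).val z.2.toNNReal z.1 j - ind J z.2.toNNReal z.1 j) ^ 2 ∂(P.prod volume) := by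
    rw [rect_eq P hm _ hb Set.univ 0 t t.coe_nonneg, setIntegral_univ]
  rw [h1]
  refine setIntegral_mono_set (bd_intOn P hm _ hb _ _ _)
    (Eventually.of_forall (fun z => sq_nonneg _)) ?_
  refine (Set.prod_mono (Set.subset_univ _) ?_).eventuallyLE
  exact Set.Ioc_subset_Ioc_left s.coe_nonneg

theorem ind_int (J : ℝ≥0 → Ω → Fin N) (hJ : IsProgressive F J) (s t : ℝ≥0) (i j : Fin N)
    (ω : Ω) : ∫ r in (s : ℝ)..t, ind J r.toNNReal ω i * ind J r.toNNReal ω j
      = if i = j then clock J t ω j - clock J s ω j else 0 := by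
  have hm : Measurable (fun r : ℝ => ind J r.toNNReal ω j) :=
    (ind_meas J hJ j).comp (measurable_const.prodMk measurable_id)
  have hint : ∀ a b : ℝ, IntervalIntegrable (fun r : ℝ => ind J r.toNNReal ω j) volume a b := by
    intro a b
    refine (intervalIntegrable_const (c := (1 : ℝ))).mono_fun hm.aestronglyMeasurable ?_
    refine Eventually.of_forall (fun r => ?_)
    simpa using ind_bdd J j r.toNNReal ω
  split_ifs with hij
  · subst hij
    have h1 : ∀ r : ℝ, ind J r.toNNReal ω i * ind J r.toNNReal ω i = ind J r.toNNReal ω i := by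
      intro r
      unfold ind
      split_ifs <;> simp
    simp only [h1]
    have h2 := intervalIntegral.integral_interval_sub_left (hint 0 t) (hint 0 s)
    rw [← h2]
    rfl
  · have h1 : ∀ r : ℝ, ind J r.toNNReal ω i * ind J r.toNNReal ω j = 0 := by
      intro r
      unfold ind
      by_cases h2 : J r.toNNReal ω = i
      · have h3 : ¬ J r.toNNReal ω = j := fun h => hij (h2.symm.trans h)
        simp [h3]
      · simp [h2]
    simp only [h1]
    simp

theorem t_IT2 (hSI1 : S_SI1.{u}) : S_IT2.{u} := by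
  intro N Ω mΩ P _ F W hW J M hJ hM hIto s t hst i j
  obtain ⟨hM2, S, hS⟩ := hIto
  have hW1 : ∀ t, Measurable[F t] (W t) := hW.2.1
  -- the simple integrals are in `L²`
  have hint2 : ∀ n (r : ℝ≥0) (k : Fin N), MemLp (fun ω => (S n).int W r ω k) 2 P := by
    intro n r k
    refine memLp_two_of_fourth (int_meas (S n) W hW1 r k) ?_
    have h1 := (hSI1 N Ω P F W hW (S n) 0 r zero_le k k).1
    simpa [int_zero] using h1
  have hD : ∀ k, MemLp (fun ω => M t ω k - M s ω k) 2 P := fun k => (hM2 t k).sub (hM2 s k)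
  have hDn : ∀ (k : Fin N) (n : ℕ),
      MemLp (fun ω => (S n).int W t ω k - (S n).int W s ω k) 2 P :=
    fun k n => (hint2 n t k).sub (hint2 n s k)
  have hconv : ∀ k, Tendsto (fun n => ∫ ω, (((S n).int W t ω k - (S n).int W s ω k)
      - (M t ω k - M s ω k)) ^ 2 ∂P) atTop (𝓝 0) := by
    intro k
    have h1 := (((hS t k).2.const_mul 2).add ((hS s k).2.const_mul 2))
    simp only [mul_zero, add_zero] at h1
    refine squeeze_zero (fun n => integral_nonneg (fun x => sq_nonneg _)) (fun n => ?_) h1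
    have i1 : Integrable (fun ω => ((S n).int W t ω k - M t ω k) ^ 2) P :=
      ((hint2 n t k).sub (hM2 t k)).integrable_sq
    have i2 : Integrable (fun ω => ((S n).int W s ω k - M s ω k) ^ 2) P :=
      ((hint2 n s k).sub (hM2 s k)).integrable_sq
    rw [← integral_const_mul, ← integral_const_mul,
      ← integral_add (i1.const_mul 2) (i2.const_mul 2)]
    refine integral_mono ((hDn k n).sub (hD k)).integrable_sq
      ((i1.const_mul 2).add (i2.const_mul 2)) (fun ω => ?_)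
    nlinarith [sq_nonneg (((S n).int W t ω k - M t ω k) + ((S n).int W s ω k - M s ω k))]
  have h4 := fourth (hD j) (hDn j) (hconv j)
    (fun n => (hSI1 N Ω P F W hW (S n) s t hst j j).1) (3 * ((t : ℝ) - s) ^ 2)
    (fun n => (hSI1 N Ω P F W hW (S n) s t hst j j).2.1)
  refine ⟨h4.1, h4.2, fun A hA => ⟨?_, ?_⟩⟩
  · have h1 := setInt_tendsto (Q := P) (hD j) (memLp_const (1 : ℝ)) (hDn j)
      (fun _ => memLp_const (1 : ℝ)) (hconv j) (by simp) A
    simp only [mul_one] at h1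
    have h2 : ∀ n, ∫ ω in A, ((S n).int W t ω j - (S n).int W s ω j) ∂P = 0 :=
      fun n => ((hSI1 N Ω P F W hW (S n) s t hst j j).2.2 A hA).1
    simp only [h2] at h1
    exact (tendsto_nhds_unique h1 tendsto_const_nhds)
  · have h1 := setInt_tendsto (hD i) (hD j) (hDn i) (hDn j) (hconv i) (hconv j) A
    have h2 : ∀ n, ∫ ω in A, ((S n).int W t ω i - (S n).int W s ω i)
        * ((S n).int W t ω j - (S n).int W s ω j) ∂P
        = ∫ z in A ×ˢ Set.Ioc (s : ℝ) t, (S n).val z.2.toNNReal z.1 i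
          * (S n).val z.2.toNNReal z.1 j ∂(P.prod volume) := by
      intro n
      rw [((hSI1 N Ω P F W hW (S n) s t hst i j).2.2 A hA).2]
      have hmm : Measurable (fun z : Ω × ℝ => (S n).val z.2.toNNReal z.1 i
          * (S n).val z.2.toNNReal z.1 j) := (val_meas (S n) i).mul (val_meas (S n) j)
      rw [rect_eq P hmm ((S n).m * (S n).m : ℝ) ?_ A s t (by exact_mod_cast hst)]
      intro z
      rw [abs_mul]
      exact mul_le_mul (val_bdd _ _ _ _) (val_bdd _ _ _ _) (abs_nonneg _) (Nat.cast_nonneg _)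
    simp only [h2] at h1
    have h3 := l2_tendsto (Q := (P.prod volume).restrict (A ×ˢ Set.Ioc (s : ℝ) t))
      (bd_memLp P (ind_meas J hJ i) 1 (fun z => ind_bdd _ _ _ _) A s t)
      (bd_memLp P (ind_meas J hJ j) 1 (fun z => ind_bdd _ _ _ _) A s t)
      (fun n => bd_memLp P (val_meas (S n) i) (S n).m (fun z => val_bdd _ _ _ _) A s t)
      (fun n => bd_memLp P (val_meas (S n) j) (S n).m (fun z => val_bdd _ _ _ _) A s t)
      (side_tendsto P S J hJ s t hst i A (hS t i).1)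
      (side_tendsto P S J hJ s t hst j A (hS t j).1)
    have h5 := tendsto_nhds_unique h1 h3
    have hmm : Measurable (fun z : Ω × ℝ => ind J z.2.toNNReal z.1 i
          * ind J z.2.toNNReal z.1 j) := (ind_meas J hJ i).mul (ind_meas J hJ j)
    rw [h5, rect_eq P hmm 1 ?_ A s t (by exact_mod_cast hst)]
    · simp only [ind_int J hJ s t i j]
    · intro z
      rw [abs_mul]
      exact mul_le_one₀ (ind_bdd _ _ _ _) (abs_nonneg _) (ind_bdd _ _ _ _)

end Main

end H16.FL
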